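import Pool.Agent.H23.RCI.Inst

/-!
# The Euler products, and the instance
-/

set_option autoImplicit false

open NumberField NumberField.InfinitePlace Set Filter Complex Topology
open scoped nonZeroDivisors

namespace Pool.Agent.H23.RCI

open Pool.Agent.H28.RC Pool.Agent.H25.HK Pool.Agent.H23.GLM
open Pool.Agent.H23.DZ (HasEuler)

/-- the summand of the Dirichlet series of a completely multiplicative function -/
noncomputable def smd (h : ℕ → ℂ) (h0 : h 0 = 0) (h1 : h 1 = 1)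
    (hm : ∀ a b, h (a * b) = h a * h b) (s : ℂ) : ℕ →*₀ ℂ where
  toFun n := h n * (n : ℂ) ^ (-s)
  map_zero' := by rw [h0, zero_mul]
  map_one' := by rw [h1, Nat.cast_one, one_cpow, one_mul]
  map_mul' a b := by
    rw [hm, Nat.cast_mul, natCast_mul_natCast_cpow]
    ring

lemma norm_smd_le {h : ℕ → ℂ} (hb : ∀ n, ‖h n‖ ≤ 1) {s : ℂ} (hs : s ≠ 0) (n : ℕ) :
    ‖h n * (n : ℂ) ^ (-s)‖ ≤ (n : ℝ) ^ (-s.re) := by
  rw [norm_mul]
  have h1 : ‖(n : ℂ) ^ (-s)‖ ≤ (n : ℝ) ^ (-s.re) := by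
    rcases Nat.eq_zero_or_pos n with h0 | h0
    · subst h0
      rw [Nat.cast_zero, zero_cpow (neg_ne_zero.2 hs), norm_zero]
      exact Real.rpow_nonneg (by simp) _
    · rw [norm_natCast_cpow_of_pos h0, neg_re]
  calc ‖h n‖ * ‖(n : ℂ) ^ (-s)‖ ≤ 1 * ‖(n : ℂ) ^ (-s)‖ :=
        mul_le_mul_of_nonneg_right (hb n) (norm_nonneg _)
    _ ≤ _ := by rw [one_mul]; exact h1

lemma summable_smd {h : ℕ → ℂ} (hb : ∀ n, ‖h n‖ ≤ 1) {s : ℂ} (hs : 1 < s.re) :
    Summable fun n : ℕ => ‖h n * (n : ℂ) ^ (-s)‖ := by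
  have hs0 : s ≠ 0 := by
    rintro rfl
    simp at hs
    linarith
  exact Summable.of_nonneg_of_le (fun n => norm_nonneg _) (norm_smd_le hb hs0)
    (Real.summable_nat_rpow.2 (by linarith))

lemma hasProd_smd {h : ℕ → ℂ} (h0 : h 0 = 0) (h1 : h 1 = 1)
    (hm : ∀ a b, h (a * b) = h a * h b) (hb : ∀ n, ‖h n‖ ≤ 1) {s : ℂ} (hs : 1 < s.re) :
    HasProd (fun p : Nat.Primes => (1 - h p * (p : ℂ) ^ (-s))⁻¹)
      (∑' n : ℕ, h n * (n : ℂ) ^ (-s)) :=
  EulerProduct.eulerProduct_completely_multiplicative_hasProd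
    (f := smd h h0 h1 hm s) (summable_smd hb hs)

lemma norm_series_le {h : ℕ → ℂ} (hb : ∀ n, ‖h n‖ ≤ 1) {s : ℂ} {ε : ℝ} (hε : 0 < ε)
    (hs : 1 + ε ≤ s.re) :
    ‖∑' n : ℕ, h n * (n : ℂ) ^ (-s)‖ ≤ 1 + ∑' n : ℕ, (n : ℝ) ^ (-(1 + ε)) := by
  have hs0 : s ≠ 0 := by
    rintro rfl
    simp at hs
    linarith
  have h1 := summable_smd hb (s := s) (by linarith)
  have h2 : Summable fun n : ℕ => (n : ℝ) ^ (-(1 + ε)) :=
    Real.summable_nat_rpow.2 (by linarith)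
  have h3 : ∀ n : ℕ, ‖h n * (n : ℂ) ^ (-s)‖ ≤ (n : ℝ) ^ (-(1 + ε)) := by
    intro n
    refine (norm_smd_le hb hs0 n).trans ?_
    rcases Nat.eq_zero_or_pos n with h0 | h0
    · subst h0
      rw [Nat.cast_zero, Real.zero_rpow (by linarith), Real.zero_rpow (by linarith)]
    · exact Real.rpow_le_rpow_of_exponent_le (by exact_mod_cast h0) (by linarith)
  have h4 := norm_tsum_le_tsum_norm h1
  have h5 := h1.tsum_le_tsum h3 h2
  linarith

/-- the Euler product of the `L`-function of a ray class character -/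
lemma euler {K : Type} [Field K] [NumberField K] (hEP : T_EPc) (χ : RCC K) :
    ∃ α : Nat.Primes → Fin (Module.finrank ℚ K) → ℂ, (∀ p j, ‖α p j‖ ≤ 1) ∧
      (∀ s : ℂ, 1 < s.re →
        (Summable fun p : Nat.Primes => ∑ j, ‖α p j‖ * (p : ℝ) ^ (-s.re)) ∧
        HasProd (fun p : Nat.Primes => ∏ j, (1 - α p j * (p : ℂ) ^ (-s))⁻¹) (Lc χ s)) ∧
      ∀ ε : ℝ, 0 < ε → ∀ s : ℂ, 1 + ε ≤ s.re →
        ‖Lc χ s‖ ≤ (1 + ∑' n : ℕ, (n : ℝ) ^ (-(1 + ε))) ^ Module.finrank ℚ K := by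
  obtain ⟨-, h, h0, h1, hm, hb, -, hL, -⟩ := hEP K χ
  refine ⟨fun p j => h j p, fun p j => hb j p, fun s hs => ⟨?_, ?_⟩, fun ε hε s hs => ?_⟩
  · refine summable_sum fun j _ => ?_
    refine Summable.of_nonneg_of_le (fun p => by positivity) (fun p => ?_)
      ((Nat.Primes.summable_rpow (r := -s.re)).2 (by linarith))
    have h2 : 0 ≤ (p : ℝ) ^ (-s.re) := by positivity
    calc ‖h j p‖ * (p : ℝ) ^ (-s.re) ≤ 1 * (p : ℝ) ^ (-s.re) :=
          mul_le_mul_of_nonneg_right (hb j p) h2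
      _ = _ := one_mul _
  · rw [hL s hs]
    exact hasProd_prod fun j _ => hasProd_smd (h0 j) (h1 j) (hm j) (hb j) hs
  · rw [hL s (by linarith), norm_prod]
    calc ∏ j, ‖∑' n : ℕ, h j n * (n : ℂ) ^ (-s)‖
        ≤ ∏ _j : Fin (Module.finrank ℚ K), (1 + ∑' n : ℕ, (n : ℝ) ^ (-(1 + ε))) :=
          Finset.prod_le_prod (fun j _ => norm_nonneg _) fun j _ => norm_series_le (hb j) hε hs
      _ = _ := by rw [Finset.prod_const, Finset.card_univ, Fintype.card_fin]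

/-- the `L`-data of a ray class character -/
theorem exists_lData (hHE : T_HEc) (hGW : T_GWc) (hEP : T_EPc)
    (hEnt : ∀ (K : Type) [Field K] [NumberField K] (χ : RCC K),
      (∃ I : Ideal (𝓞 K), χ.ψ I ≠ 0 ∧ χ.ψ I ≠ 1) →
      ∃ L : ℂ → ℂ, Differentiable ℂ L ∧ ∀ s : ℂ, 1 < s.re → L s = Lc χ s)
    {m : ℕ} (r : Ray m) : ∃ π : LData m, Differentiable ℂ π.L ∧
      (∀ s : ℂ, 1 < s.re → π.L s = Lc r.χ s) ∧
      π.N = (discr r.K).natAbs * Ideal.absNorm r.χ.f ∧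
      π.C = (discr r.K).natAbs * Ideal.absNorm r.χ.f *
        2 ^ (r.χ.S.card + nrComplexPlaces r.K) ∧
      (∀ j, π.μ j = 0 ∨ π.μ j = -1) ∧ HasEuler π ∧
      ∀ ε : ℝ, 0 < ε → ∀ s : ℂ, 1 + ε ≤ s.re →
        ‖π.L s‖ ≤ (1 + ∑' n : ℕ, (n : ℝ) ^ (-(1 + ε))) ^ m := by
  obtain ⟨K, hm, χ, hχ⟩ := r
  subst hm
  obtain ⟨L, hL, hLc⟩ := hEnt K χ hχ
  obtain ⟨α, hα, hE, hM⟩ := euler hEP χ
  have hmu : ∀ j, mu (Module.finrank ℚ K) (nrRealPlaces K - χ.S.card + nrComplexPlaces K) j = 0 ∨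
      mu (Module.finrank ℚ K) (nrRealPlaces K - χ.S.card + nrComplexPlaces K) j = -1 := by
    intro j
    unfold mu
    split_ifs
    · exact Or.inl rfl
    · exact Or.inr rfl
  refine ⟨{ N := cond χ
            N_ne := cond_ne χ
            μ := mu (Module.finrank ℚ K) (nrRealPlaces K - χ.S.card + nrComplexPlaces K)
            re_μ_lt := fun j => by
              rcases hmu j with h | h
              · rw [h]; norm_num
              · rw [h]; norm_num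
            L := L
            regular := Or.inl ⟨hL, growth hHE hGW χ hL hLc⟩
            functional := by
              obtain ⟨ε, hε, h⟩ := functional hHE χ hL hLc
              refine ⟨ε, hε, fun s => ?_⟩
              rw [arch, arch]
              exact h s }, hL, hLc, rfl, ?_, hmu, ?_, ?_⟩
  · unfold LData.C
    simp only
    have h1 := prod_mu (fun x : ℂ => 1 + ‖x‖) (deg_eq χ)
    rw [h1]
    simp only [norm_zero, add_zero, one_pow, one_mul, norm_neg, norm_one]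
    rw [one_add_one_eq_two]
    unfold cond
    rw [Nat.cast_mul]
  · refine ⟨α, fun p j => (hα p j).trans ?_, fun s hs => ?_⟩
    · refine Real.one_le_rpow ?_ (by norm_num)
      exact_mod_cast p.2.one_lt.le
    · rw [show ((⟨cond χ, cond_ne χ, mu _ _, _, L, _, _⟩ : LData _).L s) = Lc χ s from hLc s hs]
      exact hE s hs
  · intro ε hε s hs
    have h1 := hM ε hε s hs
    rw [← hLc s (by linarith)] at h1
    exact h1

end Pool.Agent.H23.RCI
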