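import Pool.Agent.H23.RCI.Ent
import Pool.Agent.H23.RCI.Euler
import Pool.Agent.H23.DZ.Inst
import Pool.Agent.H28.RC.WP
import Pool.Agent.H3.HK.GA
import Pool.Agent.H3.HK.GM
import Pool.Agent.H3.HK.LB
import Pool.Agent.H3.HK.TH
import Pool.Agent.H11.HK.BD
import Pool.Agent.H16.HK.GS
import Pool.Agent.H16.HK.PO
import Pool.Agent.H16.HK.PS
import Pool.Agent.H41.HK.BI
import Pool.Agent.H41.HK.G1
import Pool.Agent.H41.HK.JA
import Pool.Agent.H41.HK.UN
import Pool.Agent.H63.HK.DU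
import Pool.Agent.H66.HK.FD
import Pool.Agent.H87.HK.UI
import Pool.Agent.H87.HK.YC
import Pool.Agent.H12.RC.GS
import Pool.Agent.H16.RC.CW
import Pool.Agent.H19.RC.CM
import Pool.Agent.H19.RC.ME
import Pool.Agent.H19.RC.TH
import Pool.Agent.H24.RC.DC
import Pool.Agent.H24.RC.GI
import Pool.Agent.H33.RC.F1
import Pool.Agent.H42.RC.GA
import Pool.Agent.H48.RC.CN
import Pool.Agent.H48.RC.RX
import Pool.Agent.H50.RC.CV
import Pool.Agent.H68.RC.GM
import Pool.Agent.H68.RC.LB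
import Pool.Agent.H68.RC.PO
import Pool.Agent.H69.RC.CI
import Pool.Agent.H71.RC.UI
import Pool.Agent.H81.RC.EP
import Pool.Agent.H81.RC.HE
import Pool.Agent.H86.RC.CS
import Pool.Agent.H86.RC.CT
import Pool.Agent.H86.RC.GW
import Pool.Agent.H92.RC.CP
import Pool.Agent.H92.RC.ID

/-!
# The `L`-functions of ray class characters: assembly

Every set of primitive ray class characters (not trivial) of number fields of degree `m` is a set of
`L`-data of degree `m` with Molteni's bound and the bounds far to the right.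
-/

set_option autoImplicit false

open NumberField NumberField.InfinitePlace Set Complex

namespace Pool.Agent.H23.RCI

open Pool.Agent.H28.RC Pool.Agent.H25.HK Pool.Agent.H23.GLM Pool.Agent.H23.DZ

theorem k_TH : T_TH :=
  Pool.Agent.H3.HK.th_fe (Pool.Agent.H16.HK.po Pool.Agent.H16.HK.ps Pool.Agent.H3.HK.ga
    Pool.Agent.H16.HK.gs) Pool.Agent.H3.HK.gm Pool.Agent.H3.HK.lb

theorem k_YC : T_YC := Pool.Agent.H87.HK.yc_main

theorem k_UI : T_UI := Pool.Agent.H87.HK.ui k_YC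

theorem k_DU : T_DU := Pool.Agent.H63.HK.du

theorem c_ID : T_ID := Pool.Agent.H92.RC.pf_ID

theorem c_CM : T_CM := Pool.Agent.H19.RC.pf_CM c_ID

theorem c_CP : T_CP := Pool.Agent.H92.RC.pf_CP c_ID c_CM

theorem c_RX : T_RX := Pool.Agent.H48.RC.pf_RX

theorem c_PO : T_POc :=
  Pool.Agent.H68.RC.pf_PO Pool.Agent.H16.HK.ps
    (Pool.Agent.H42.RC.pf_GA Pool.Agent.H33.RC.pf_F1) Pool.Agent.H12.RC.pf_GS

theorem c_SM : T_SMc := pf_SM k_TH

theorem c_TH : T_THc :=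
  Pool.Agent.H19.RC.pf_TH c_PO (Pool.Agent.H68.RC.pf_GM Pool.Agent.H3.HK.gm)
    (Pool.Agent.H68.RC.pf_LB Pool.Agent.H3.HK.lb) c_SM

theorem c_CI : T_CI := Pool.Agent.H69.RC.pf_CI c_ID c_CM c_CP k_DU c_RX

theorem c_CV : T_CV := Pool.Agent.H50.RC.pf_CV c_ID c_CM c_CP k_DU

theorem c_CW : T_CW := Pool.Agent.H16.RC.pf_CW c_ID c_CM c_CP c_CV c_CI c_RX k_DU

theorem c_CN : T_CN := Pool.Agent.H48.RC.pf_CN c_ID c_CM c_CP c_RX k_DU c_CW

theorem c_UI : T_UIc := Pool.Agent.H71.RC.pf_UI k_YC k_UI c_CM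

theorem c_CT : T_CTc := Pool.Agent.H86.RC.pf_CT k_TH

theorem c_DC : T_DCc := Pool.Agent.H24.RC.pf_DC k_TH k_YC Pool.Agent.H66.HK.fd

theorem c_GI : T_GIc :=
  Pool.Agent.H24.RC.pf_GI Pool.Agent.H41.HK.ja Pool.Agent.H41.HK.g1 k_YC

theorem c_EP : T_EPc := Pool.Agent.H81.RC.ep

theorem c_ME : T_MEc :=
  Pool.Agent.H19.RC.pf_ME Pool.Agent.H41.HK.bi Pool.Agent.H41.HK.un c_GI Pool.Agent.H66.HK.fd
    c_SM c_EP c_CT k_YC k_UI c_UI c_CM c_ID

theorem c_CS : T_CSc := Pool.Agent.H86.RC.pf_CS k_DU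

theorem c_GW : T_GWc := Pool.Agent.H86.RC.pf_GW c_EP

theorem c_WP : T_WPc :=
  pf_WP c_TH c_UI Pool.Agent.H66.HK.fd c_CT c_DC k_DU k_YC c_CM c_CP c_CN c_RX c_ID

theorem c_HE : T_HEc :=
  Pool.Agent.H81.RC.pf_HE c_WP c_ME c_CS c_EP k_DU c_CW c_CN Pool.Agent.H11.HK.bd

/-- The `L`-functions of all primitive ray class characters, with the exception of the trivial ones,
of number fields of degree `m` are `L`-data of degree `m`; for every set of them Molteni's bound and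
the bounds far to the right hold. -/
theorem ray_instance (m : ℕ) : ∃ e : Ray m → LData m,
    (∀ r : Ray m, Differentiable ℂ (e r).L ∧ (∀ s : ℂ, 1 < s.re → (e r).L s = Lc r.χ s) ∧
      (e r).N = (discr r.K).natAbs * Ideal.absNorm r.χ.f ∧
      (e r).C = (discr r.K).natAbs * Ideal.absNorm r.χ.f *
        2 ^ (r.χ.S.card + nrComplexPlaces r.K) ∧
      ∀ j, (e r).μ j = 0 ∨ (e r).μ j = -1) ∧
    (∀ S : Set (Ray m), Molteni (e '' S) ∧ FarBounds (e '' S)) ∧ ∀ r : Ray m, HasEuler (e r) := by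
  choose e h1 h2 h3 h4 h5 h6 h7 using
    fun r : Ray m => exists_lData c_HE c_GW c_EP
      (fun K _ _ χ hχ => entire c_WP c_ME c_CS c_EP k_DU c_CW c_CM c_CP c_ID K χ hχ) r
  refine ⟨e, fun r => ⟨h1 r, h2 r, h3 r, h4 r, h5 r⟩, fun S => ⟨?_, ?_⟩, h6⟩
  · intro ε hε
    refine ⟨(1 + ∑' n : ℕ, (n : ℝ) ^ (-(1 + ε))) ^ m, ?_⟩
    rintro _ ⟨r, -, rfl⟩ s hs
    have hC : 1 ≤ (e r).C := by
      rw [h4 r]
      have k1 : (1 : ℝ) ≤ ((discr r.K).natAbs : ℝ) * (Ideal.absNorm r.χ.f : ℝ) := by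
        have h := Nat.pos_of_ne_zero (cond_ne r.χ)
        unfold cond at h
        exact_mod_cast h
      have k2 : (1 : ℝ) ≤ 2 ^ (r.χ.S.card + nrComplexPlaces r.K) := one_le_pow₀ (by norm_num)
      nlinarith
    have h8 : 1 ≤ (e r).C ^ ε := Real.one_le_rpow hC hε.le
    have h9 := h7 r ε hε s hs
    have h10 : 0 ≤ (1 + ∑' n : ℕ, (n : ℝ) ^ (-(1 + ε))) ^ m := (norm_nonneg _).trans h9
    calc ‖(e r).L s‖ ≤ (1 + ∑' n : ℕ, (n : ℝ) ^ (-(1 + ε))) ^ m * 1 := by rw [mul_one]; exact h9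
      _ ≤ _ := mul_le_mul_of_nonneg_left h8 h10
  · refine farBounds_of_euler ?_
    rintro _ ⟨r, -, rfl⟩
    exact h6 r

end Pool.Agent.H23.RCI
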