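import Pool.Agent.H28.RC.Defs
import Pool.Agent.H23.GLM.Defs
import Pool.Agent.H23.DZ.Far

/-!
# Ray class characters of number fields of degree `m`

`Ray m` is the type of all primitive ray class characters, with the exception of the trivial ones,
of number fields of degree `m` over `ℚ`. Their `L`-functions are standard `L`-functions of degree
`m`. For `m = 1` these are the primitive Dirichlet characters which are not trivial.
-/

set_option autoImplicit false

open NumberField

namespace Pool.Agent.H23.RCI

open Pool.Agent.H28.RC

/-- A primitive ray class character `χ`, not the trivial one, of a number field `K` of degree `m`. -/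
structure Ray (m : ℕ) where
  /-- the number field -/
  K : Type
  [field : Field K]
  [numberField : NumberField K]
  deg : Module.finrank ℚ K = m
  /-- the character, with its conductor `χ.f` and the set `χ.S` of the real places at which it is
  ramified -/
  χ : RCC K
  nontrivial : ∃ I : Ideal (𝓞 K), χ.ψ I ≠ 0 ∧ χ.ψ I ≠ 1

attribute [instance] Ray.field Ray.numberField

end Pool.Agent.H23.RCI
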