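import Pool.Agent.H81.RC.HE
import Pool.Agent.H12.RC.H1

/-!
# The L-function of a nontrivial ray class character is entire
-/

set_option autoImplicit false

open NumberField NumberField.InfinitePlace NumberField.Units
  NumberField.Units.dirichletUnitTheorem MeasureTheory Set Filter Complex
open scoped nonZeroDivisors ENNReal

namespace Pool.Agent.H23.RCI

open Pool.Agent.H28.RC Pool.Agent.H25.HK Pool.Agent.H25 Pool.Agent.H81.RC.HE

lemma differentiable_dslope {F : ℂ → ℂ} (hF : Differentiable ℂ F) (a : ℂ) :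
    Differentiable ℂ (dslope F a) := by
  rw [← differentiableOn_univ]
  exact (Complex.differentiableOn_dslope (univ_mem (f := nhds a))).2 hF.differentiableOn

open scoped Classical in
theorem entire (hWP : T_WPc) (hME : T_MEc) (hCS : T_CSc) (hEP : T_EPc) (hDU : T_DU)
    (hCW : T_CW) (hCM : T_CM) (hCP : T_CP) (hID : T_ID)
    (K : Type) [Field K] [NumberField K] (χ : RCC K)
    (hχ : ∃ I : Ideal (𝓞 K), χ.ψ I ≠ 0 ∧ χ.ψ I ≠ 1) :
    ∃ L : ℂ → ℂ, Differentiable ℂ L ∧ ∀ s : ℂ, 1 < s.re → L s = Lc χ s := by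
  obtain ⟨I₀, h0, h1⟩ := hχ
  obtain ⟨W, hW⟩ := hCW K χ
  obtain ⟨ι, hι, M, hM0, hM1, hM2⟩ := hCS K χ.f χ.f_ne
  choose P hPf hPg hPk hPε hPf0 hPg0 using fun c => hWP K χ W (M c) hW (hM0 c)
  have hNp : ∀ c, 0 < (FractionalIdeal.absNorm (M c) : ℝ) := fun c =>
    (hDU K (M c) (hM0 c)).2.2.2.1
  have hLK := LK_eq hME hEP χ M hM0 hM1 hNp P hPk hPf hPf0
  obtain ⟨N, hN⟩ : ∃ N : ι → ℝ, N = fun c => (FractionalIdeal.absNorm (M c) : ℝ) := ⟨_, rfl⟩
  rw [← hN] at hLK
  have hN0 : ∀ c, 0 < N c := fun c => by rw [hN]; exact hNp c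
  have hfM : ∀ c, (χ.f : FI K) * M c ≠ 0 := fun c =>
    mul_ne_zero (Pool.Agent.H12.RC.coe_ne χ.f_ne) (hM0 c)
  have hM' : ∀ c, du' χ (M c) ≠ 0 := fun c => (hDU K _ (hfM c)).1
  have hpow : ∀ c, Differentiable ℂ (fun s : ℂ => ((N c : ℝ) : ℂ) ^ s) := fun c s =>
    (differentiableAt_id).const_cpow (Or.inl (by exact_mod_cast (hN0 c).ne'))
  -- the singular part at `1`
  obtain ⟨F, hF⟩ : ∃ F : ℂ → ℂ, F = fun s => ∑ c, ((N c : ℝ) : ℂ) ^ s * ((P c).ε * (P c).g₀) :=
    ⟨_, rfl⟩
  have hFd : Differentiable ℂ F := by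
    rw [hF]
    intro s
    exact DifferentiableAt.fun_sum fun c _ => (hpow c s).mul_const _
  have hF1 : F 1 = 0 := by
    rw [hF]
    simp only
    by_cases hS : χ.S = ∅
    · by_cases hf : χ.f = ⊤
      · have hbS : χ.bar.S = ∅ := hS
        have hbf : χ.bar.f = ⊤ := hf
        have hz := Pool.Agent.H12.RC.sum_zero hCP hID χ.bar hbS hbf (I₀ := I₀)
          (by
            intro h
            exact h0 ((map_eq_zero (starRingEnd ℂ)).1 h))
          (by
            intro h
            apply h1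
            have h2 := congrArg (starRingEnd ℂ) (show (starRingEnd ℂ) (χ.ψ I₀) = 1 from h)
            rwa [Complex.conj_conj, map_one] at h2)
          (fun c => du' χ (M c)) hM' hM2
        obtain ⟨D, hD⟩ : ∃ D : ℂ, D = ((Real.sqrt |(discr K : ℝ)|)⁻¹ : ℝ) *
          ((-I) ^ χ.S.card * W) * ((volume.real (Fd K) : ℝ) : ℂ) := ⟨_, rfl⟩
        have h2 : ∀ c ∈ (Finset.univ : Finset ι), ((N c : ℝ) : ℂ) ^ (1 : ℂ) *
            ((P c).ε * (P c).g₀) = D * cf χ.bar (du' χ (M c)) 0 := by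
          intro c _
          have h3 : (P c).g₀ = cf χ.bar (du' χ (M c)) 0 * ((volume.real (Fd K) : ℝ) : ℂ) := by
            rw [hPg0]
            unfold k0
            rw [if_pos hbS]
          have h4 : (χ.f : FI K) * M c = M c := by
            rw [hf]
            simp only [FractionalIdeal.coeIdeal_top, one_mul]
          rw [h3, hPε, h4, cpow_one, hD]
          unfold cv
          have h5 : (FractionalIdeal.absNorm (M c) : ℝ) = N c := by rw [hN]
          rw [h5]
          have h6 : ((N c : ℝ) : ℂ) ≠ 0 := by exact_mod_cast (hN0 c).ne'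
          push_cast
          field_simp
        rw [Finset.sum_congr rfl h2, ← Finset.mul_sum, hz, mul_zero]
      · refine Finset.sum_eq_zero fun c _ => ?_
        have h3 : (P c).g₀ = 0 := by
          rw [hPg0]
          unfold k0
          rw [(hCM K χ.bar (du' χ (M c)) (hM' c)).2.2.2.2.2.1 hf, zero_mul, ite_self]
        rw [h3, mul_zero, mul_zero]
    · refine Finset.sum_eq_zero fun c _ => ?_
      have h3 : (P c).g₀ = 0 := by
        rw [hPg0]
        unfold k0
        exact if_neg hS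
      rw [h3, mul_zero, mul_zero]
  -- the singular part at `0`
  obtain ⟨E, hE⟩ : ∃ E : ℂ → ℂ, E = fun s => ∑ c, ((N c : ℝ) : ℂ) ^ s * (P c).f₀ := ⟨_, rfl⟩
  have hEd : Differentiable ℂ E := by
    rw [hE]
    intro s
    exact DifferentiableAt.fun_sum fun c _ => (hpow c s).mul_const _
  have hE0 : E 0 = 0 := by
    rw [hE]
    simp only
    by_cases hS : χ.S = ∅
    · by_cases hf : χ.f = ⊤
      · have hz := Pool.Agent.H12.RC.sum_zero hCP hID χ hS hf (I₀ := I₀) h0 h1 M hM0 hM1
        have h2 : ∀ c ∈ (Finset.univ : Finset ι), ((N c : ℝ) : ℂ) ^ (0 : ℂ) * (P c).f₀ =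
            ((volume.real (Fd K) : ℝ) : ℂ) * cf χ (M c) 0 := by
          intro c _
          rw [hPf0]
          unfold k0
          rw [if_pos hS, cpow_zero]
          ring
        rw [Finset.sum_congr rfl h2, ← Finset.mul_sum, hz, mul_zero]
      · refine Finset.sum_eq_zero fun c _ => ?_
        have h3 : (P c).f₀ = 0 := by
          rw [hPf0]
          unfold k0
          rw [(hCM K χ (M c) (hM0 c)).2.2.2.2.2.1 hf, zero_mul, ite_self]
        rw [h3, mul_zero]
    · refine Finset.sum_eq_zero fun c _ => ?_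
      have h3 : (P c).f₀ = 0 := by
        rw [hPf0]
        unfold k0
        exact if_neg hS
      rw [h3, mul_zero]
  refine ⟨fun s => (cK K)⁻¹ * (gS χ s)⁻¹ * (∑ c, ((N c : ℝ) : ℂ) ^ s * (P c).Λ₀ s -
    dslope E 0 s + dslope F 1 s), ?_, fun s hs => ?_⟩
  · refine ((gS_inv_diff χ).const_mul _).mul (Differentiable.add (Differentiable.sub ?_ ?_) ?_)
    · intro s
      exact DifferentiableAt.fun_sum fun c _ => (hpow c s).mul ((P c).differentiable_Λ₀ s)
    · exact differentiable_dslope hEd 0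
    · exact differentiable_dslope hFd 1
  · have hs0 : s ≠ 0 := by
      rintro rfl
      simp at hs
      linarith
    have hs1 : s ≠ 1 := by
      rintro rfl
      simp at hs
    have h2 : LK N P s = ∑ c, ((N c : ℝ) : ℂ) ^ s * (P c).Λ₀ s - dslope E 0 s +
        dslope F 1 s := by
      have h3 : dslope E 0 s = (∑ c, ((N c : ℝ) : ℂ) ^ s * (P c).f₀) / s := by
        rw [dslope_of_ne _ hs0, slope_def_field, hE0, sub_zero, sub_zero, hE]
      have h4 : dslope F 1 s = (∑ c, ((N c : ℝ) : ℂ) ^ s * ((P c).ε * (P c).g₀)) / (s - 1) := by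
        rw [dslope_of_ne _ hs1, slope_def_field, hF1, sub_zero, hF]
      rw [h3, h4, Finset.sum_div, Finset.sum_div, ← Finset.sum_sub_distrib,
        ← Finset.sum_add_distrib]
      unfold LK
      refine Finset.sum_congr rfl fun c _ => ?_
      have h6 : (P c).Λ s = (P c).Λ₀ s - (1 / s) • (P c).f₀ -
          ((P c).ε / ((P c).k - s)) • (P c).g₀ := rfl
      rw [h6, hPk, smul_eq_mul, smul_eq_mul, ofReal_one]
      have h7 : (1 : ℂ) - s ≠ 0 := sub_ne_zero.2 (Ne.symm hs1)
      have h8 : s - 1 ≠ 0 := sub_ne_zero.2 hs1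
      have h9 : (P c).ε / (1 - s) * (P c).g₀ = -((P c).ε * (P c).g₀ / (s - 1)) := by
        rw [← neg_sub s 1, div_neg]
        ring
      rw [h9]
      ring
    show (cK K)⁻¹ * (gS χ s)⁻¹ * (∑ c, ((N c : ℝ) : ℂ) ^ s * (P c).Λ₀ s -
      dslope E 0 s + dslope F 1 s) = Lc χ s
    rw [← h2, hLK s hs]
    have h3 := Pool.Agent.H81.RC.HE.gS_ne_of_re χ hs
    have h4 := cK_ne K
    field_simp

end Pool.Agent.H23.RCI
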