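import Pool.Agent.H23.RCI.Defs
import Pool.Agent.H23.GLM.GL1
import Pool.Agent.H81.RC.HE

/-!
# The `L`-functions of ray class characters as `L`-data
-/

set_option autoImplicit false

open NumberField NumberField.InfinitePlace Set Filter Complex Topology
open scoped nonZeroDivisors

namespace Pool.Agent.H23.RCI

open Pool.Agent.H28.RC Pool.Agent.H25.HK Pool.Agent.H23.GLM Pool.Agent.H81.RC.HE
open Pool.Agent.H23.DZ (HasEuler)

/-! ### The archimedean parameters -/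

/-- `a` zeros, then `-1` -/
noncomputable def mu (m a : ℕ) (j : Fin m) : ℂ := if (j : ℕ) < a then 0 else -1

lemma prod_mu {M : Type*} [CommMonoid M] (F : ℂ → M) {m a b : ℕ} (h : a + b = m) :
    ∏ j, F (mu m a j) = F 0 ^ a * F (-1) ^ b := by
  subst h
  have h1 : ∏ j : Fin (a + b), F (mu (a + b) a j) =
      ∏ j ∈ Finset.range (a + b), F (if j < a then 0 else -1) :=
    Fin.prod_univ_eq_prod_range (fun j : ℕ => F (if j < a then 0 else -1)) (a + b)
  rw [h1, Finset.prod_range_add]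
  congr 1
  · rw [Finset.prod_congr rfl (g := fun _ => F 0)]
    · simp
    · intro j hj
      rw [if_pos (Finset.mem_range.1 hj)]
  · rw [Finset.prod_congr rfl (g := fun _ => F (-1))]
    · simp
    · intro j _
      rw [if_neg (by omega)]

section

variable {K : Type} [Field K] [NumberField K]

lemma card_S_le (χ : RCC K) : χ.S.card ≤ nrRealPlaces K := by
  classical
  exact χ.S.card_le_univ

lemma deg_eq (χ : RCC K) : (nrRealPlaces K - χ.S.card + nrComplexPlaces K) +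
    (χ.S.card + nrComplexPlaces K) = Module.finrank ℚ K := by
  have h1 := card_S_le χ
  have h2 := card_add_two_mul_card_eq_rank K
  omega

lemma arch (χ : RCC K) (s : ℂ) :
    archFactor (mu (Module.finrank ℚ K) (nrRealPlaces K - χ.S.card + nrComplexPlaces K)) s =
      gS χ s := by
  unfold archFactor
  rw [prod_mu (fun x => Gammaℝ (s - x)) (deg_eq χ)]
  unfold gS
  rw [Gammaℂ_eq, sub_zero, sub_neg_eq_add, mul_pow, pow_add, pow_add]
  ring

lemma gS_bar (χ : RCC K) (s : ℂ) : gS χ.bar s = gS χ s := rfl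

lemma gS_conj (χ : RCC K) (s : ℂ) :
    gS χ ((starRingEnd ℂ) s) = (starRingEnd ℂ) (gS χ s) := by
  unfold gS
  have h1 : (starRingEnd ℂ) s + 1 = (starRingEnd ℂ) (s + 1) := by simp
  rw [Gammaℂ_eq, Gammaℂ_eq, h1, Gammaℝ_conj, Gammaℝ_conj]
  simp

lemma gS_cont (χ : RCC K) {s : ℂ} (hs : gS χ s ≠ 0) : ContinuousAt (gS χ) s := by
  have h1 : ContinuousAt (fun s => ((gS χ s)⁻¹)⁻¹) s :=
    ((gS_inv_diff χ).continuous.continuousAt).inv₀ (inv_ne_zero hs)
  simpa using h1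

/-! ### The complex conjugate -/

lemma Lc_bar (χ : RCC K) (s : ℂ) :
    Lc χ.bar ((starRingEnd ℂ) s) = (starRingEnd ℂ) (Lc χ s) := by
  unfold Lc
  rw [Complex.conj_tsum]
  refine tsum_congr fun I => ?_
  rw [map_mul]
  have h1 : ((Ideal.absNorm I.1 : ℂ)).arg ≠ Real.pi := by
    rw [natCast_arg]
    exact Real.pi_pos.ne
  have h2 := cpow_conj (Ideal.absNorm I.1 : ℂ) (-s) h1
  rw [Complex.conj_natCast, map_neg] at h2
  rw [h2]
  rfl

/-- the function `s ↦ conj (L (conj s))` -/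
noncomputable def cc (L : ℂ → ℂ) (s : ℂ) : ℂ := (starRingEnd ℂ) (L ((starRingEnd ℂ) s))

lemma cc_diff {L : ℂ → ℂ} (h : Differentiable ℂ L) : Differentiable ℂ (cc L) := by
  intro s
  have h1 : DifferentiableAt ℂ L ((starRingEnd ℂ) s) := h _
  have h2 := h1.conj_conj
  rw [Complex.conj_conj] at h2
  exact h2

lemma cc_eq (χ : RCC K) {L : ℂ → ℂ} (h : ∀ s : ℂ, 1 < s.re → L s = Lc χ s) (s : ℂ)
    (hs : 1 < s.re) : cc L s = Lc χ.bar s := by
  unfold cc
  rw [h _ (by simpa using hs)]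
  have h1 := Lc_bar χ ((starRingEnd ℂ) s)
  rw [Complex.conj_conj] at h1
  exact h1.symm

/-! ### Uniqueness of the continuation off the real axis -/

lemma convex_im (u : ℝ) : Convex ℝ {s : ℂ | 0 < u * s.im} := by
  intro x hx y hy a b ha hb hab
  simp only [mem_ofPred_eq, add_im, real_smul, mul_im, ofReal_re, ofReal_im, zero_mul, add_zero]
    at hx hy ⊢
  rcases ha.eq_or_lt with h | h
  · have h1 : b = 1 := by linarith
    rw [← h, h1]
    simpa using hy
  · have h1 : 0 < a * (u * x.im) := mul_pos h hx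
    have h2 : 0 ≤ b * (u * y.im) := mul_nonneg hb hy.le
    have h3 : u * (a * x.im + b * y.im) = a * (u * x.im) + b * (u * y.im) := by ring
    linarith

lemma eq_cont (χ : RCC K) {L Z : ℂ → ℂ} (hL : Differentiable ℂ L)
    (h : ∀ s : ℂ, 1 < s.re → L s = Lc χ s) (hZ : IsZc χ Z) (s : ℂ) (hs : s.im ≠ 0) :
    Z s = L s := by
  obtain ⟨u, hu, hus⟩ : ∃ u : ℝ, u ≠ 0 ∧ 0 < u * s.im :=
    ⟨s.im, hs, mul_self_pos.2 hs⟩
  obtain ⟨V, hV⟩ : ∃ V : Set ℂ, V = {s : ℂ | 0 < u * s.im} := ⟨_, rfl⟩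
  have hVo : IsOpen V := by
    rw [hV]
    exact isOpen_lt continuous_const (continuous_const.mul continuous_im)
  have hVc : IsPreconnected V := by
    rw [hV]
    exact (convex_im u).isPreconnected
  have hV0 : ∀ z ∈ V, z.im ≠ 0 := by
    intro z hz h0
    rw [hV] at hz
    simp only [mem_ofPred_eq, h0, mul_zero, lt_irrefl] at hz
  have h1 : AnalyticOnNhd ℂ Z V :=
    DifferentiableOn.analyticOnNhd (fun z hz => (hZ.1 z (hV0 z hz)).differentiableWithinAt) hVo
  have h2 : AnalyticOnNhd ℂ L V := hL.differentiableOn.analyticOnNhd hVo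
  have hz0 : (2 + u * I : ℂ) ∈ V := by
    rw [hV]
    simp only [mem_ofPred_eq, add_im, mul_im, ofReal_re, I_im, mul_one, ofReal_im, I_re, mul_zero,
      add_zero]
    have h3 : (2 : ℂ).im = 0 := rfl
    rw [h3, zero_add]
    exact mul_self_pos.2 hu
  refine h1.eqOn_of_preconnected_of_eventuallyEq h2 hVc hz0 ?_ (by rw [hV]; exact hus)
  have h4 : {z : ℂ | 1 < z.re} ∈ 𝓝 (2 + u * I : ℂ) := by
    refine (isOpen_lt continuous_const continuous_re).mem_nhds ?_
    simp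
  filter_upwards [h4] with z hz
  rw [hZ.2 z hz, h z hz]

/-! ### Growth -/

lemma grow_up (hHE : T_HEc) (hGW : T_GWc) (χ : RCC K) {L : ℂ → ℂ} (hL : Differentiable ℂ L)
    (h : ∀ s : ℂ, 1 < s.re → L s = Lc χ s) (b : ℝ) :
    ∃ C : ℝ, 0 < C ∧ ∀ s : ℂ, |s.re| ≤ b → 1 ≤ s.im → ‖L s‖ ≤ C * s.im ^ C := by
  obtain ⟨Z, Z', ε, hF⟩ := hHE K χ
  obtain ⟨C, hC, hb⟩ := hGW K χ Z Z' ε hF b
  refine ⟨C, hC, fun s h1 h2 => ?_⟩
  rw [← eq_cont χ hL h hF.1 s (by linarith)]
  exact hb s h1 h2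

lemma exp_bd {C y x : ℝ} (hC : 0 < C) (hy : 1 ≤ y) (hyx : y ≤ x) :
    C * y ^ C ≤ Real.exp ((|Real.log C| + C) * (1 + x)) := by
  have hy0 : 0 < y := by linarith
  have h1 : C * y ^ C = Real.exp (Real.log C + Real.log y * C) := by
    rw [Real.exp_add, Real.exp_log hC, Real.rpow_def_of_pos hy0]
  rw [h1]
  refine Real.exp_le_exp.2 ?_
  have h2 : Real.log y ≤ x := (Real.log_le_self hy0.le).trans hyx
  have h3 : Real.log y * C ≤ x * C := mul_le_mul_of_nonneg_right h2 hC.le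
  have h4 : Real.log C ≤ |Real.log C| := le_abs_self _
  have h5 : 0 ≤ |Real.log C| * x := mul_nonneg (abs_nonneg _) (by linarith)
  nlinarith

lemma growth (hHE : T_HEc) (hGW : T_GWc) (χ : RCC K) {L : ℂ → ℂ} (hL : Differentiable ℂ L)
    (h : ∀ s : ℂ, 1 < s.re → L s = Lc χ s) (σ₁ σ₂ : ℝ) :
    ∃ (A : ℝ) (k : ℕ), ∀ s : ℂ, σ₁ ≤ s.re → s.re ≤ σ₂ → ‖L s‖ ≤ Real.exp (A * (1 + ‖s‖) ^ k) := by
  obtain ⟨b, hb⟩ : ∃ b : ℝ, b = max |σ₁| |σ₂| := ⟨_, rfl⟩
  obtain ⟨C₁, hC₁, h1⟩ := grow_up hHE hGW χ hL h b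
  obtain ⟨C₂, hC₂, h2⟩ := grow_up hHE hGW χ.bar (cc_diff hL) (cc_eq χ h) b
  obtain ⟨C₃, h3⟩ := (isCompact_closedBall (0 : ℂ) (b + 1)).exists_bound_of_continuousOn
    hL.continuous.continuousOn
  refine ⟨(|Real.log C₁| + C₁) + (|Real.log C₂| + C₂) + |C₃|, 1, fun s hs1 hs2 => ?_⟩
  have hre : |s.re| ≤ b := by
    rw [abs_le, hb]
    constructor
    · have := neg_abs_le σ₁
      have := le_max_left |σ₁| |σ₂|
      linarith
    · have := le_abs_self σ₂
      have := le_max_right |σ₁| |σ₂|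
      linarith
  rw [pow_one]
  have hx : 0 ≤ 1 + ‖s‖ := by positivity
  have k1 : 0 ≤ (|Real.log C₁| + C₁) * (1 + ‖s‖) := by positivity
  have k2 : 0 ≤ (|Real.log C₂| + C₂) * (1 + ‖s‖) := by positivity
  have k3 : 0 ≤ |C₃| * (1 + ‖s‖) := by positivity
  have key : ∀ x : ℝ, x ≤ (|Real.log C₁| + C₁) * (1 + ‖s‖) ∨
      x ≤ (|Real.log C₂| + C₂) * (1 + ‖s‖) ∨ x ≤ |C₃| * (1 + ‖s‖) →
      x ≤ ((|Real.log C₁| + C₁) + (|Real.log C₂| + C₂) + |C₃|) * (1 + ‖s‖) := by
    intro x hx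
    rw [add_mul, add_mul]
    rcases hx with hx | hx | hx <;> linarith
  rcases le_or_gt 1 s.im with him | him
  · refine (h1 s hre him).trans ((exp_bd hC₁ him ?_).trans
      (Real.exp_le_exp.2 (key _ (Or.inl le_rfl))))
    exact (le_abs_self _).trans (abs_im_le_norm s)
  · rcases le_or_gt s.im (-1) with him' | him'
    · have h4 := h2 ((starRingEnd ℂ) s) (by simpa using hre) (by simp; linarith)
      have h5 : ‖cc L ((starRingEnd ℂ) s)‖ = ‖L s‖ := by
        unfold cc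
        rw [Complex.conj_conj, Complex.norm_conj]
      rw [h5] at h4
      refine h4.trans ((exp_bd hC₂ (by simp; linarith) ?_).trans
        (Real.exp_le_exp.2 (key _ (Or.inr (Or.inl le_rfl)))))
      have h6 := (le_abs_self _).trans (abs_im_le_norm ((starRingEnd ℂ) s))
      rwa [Complex.norm_conj] at h6
    · have h4 : ‖s‖ ≤ b + 1 := by
        refine (Complex.norm_le_abs_re_add_abs_im s).trans ?_
        have : |s.im| ≤ 1 := abs_le.2 ⟨him'.le, him.le⟩
        linarith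
      have h5 := h3 s (by simpa [mem_closedBall_zero_iff] using h4)
      have h6 : C₃ ≤ |C₃| * (1 + ‖s‖) := by
        have := le_abs_self C₃
        have h7 : 0 ≤ |C₃| * ‖s‖ := by positivity
        nlinarith
      calc ‖L s‖ ≤ C₃ := h5
        _ ≤ |C₃| * (1 + ‖s‖) := h6
        _ ≤ Real.exp (|C₃| * (1 + ‖s‖)) := by
            have := Real.add_one_le_exp (|C₃| * (1 + ‖s‖))
            linarith
        _ ≤ _ := Real.exp_le_exp.2 (key _ (Or.inr (Or.inr le_rfl)))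

/-! ### The functional equation -/

/-- the conductor -/
noncomputable def cond (χ : RCC K) : ℕ := (discr K).natAbs * Ideal.absNorm χ.f

lemma cond_ne (χ : RCC K) : cond χ ≠ 0 := by
  unfold cond
  refine mul_ne_zero (Int.natAbs_ne_zero.2 (discr_ne_zero K)) ?_
  rw [Ne, Ideal.absNorm_eq_zero_iff]
  exact χ.f_ne

lemma cond_cast (χ : RCC K) :
    ((|(discr K : ℝ)| * (Ideal.absNorm χ.f : ℝ) : ℝ) : ℂ) = (cond χ : ℂ) := by
  have h1 : |(discr K : ℝ)| = ((discr K).natAbs : ℝ) := by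
    rw [Nat.cast_natAbs, Int.cast_abs]
  unfold cond
  rw [h1]
  push_cast
  rfl

lemma freq_im (s : ℂ) : ∃ᶠ z in 𝓝 s, z.im ≠ 0 := by
  by_cases hs : s.im = 0
  · rw [Filter.frequently_iff]
    intro U hU
    obtain ⟨r, hr, hrU⟩ := Metric.mem_nhds_iff.1 hU
    refine ⟨s + (r / 2 : ℝ) * I, hrU ?_, ?_⟩
    · rw [Metric.mem_ball, dist_eq_norm, add_sub_cancel_left, norm_mul, norm_I, mul_one,
        Complex.norm_real, Real.norm_eq_abs, abs_of_pos (by linarith)]
      linarith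
    · simp [hs, hr.ne']
  · have h1 : ∀ᶠ z : ℂ in 𝓝 s, z.im ≠ 0 :=
      (isOpen_ne_fun continuous_im continuous_const).mem_nhds hs
    exact h1.frequently

lemma comp_aux {g f : ℂ → ℂ} {s w : ℂ} (hf : ContinuousAt f s) (hg : ContinuousAt g w)
    (hw : w = f s) : ContinuousAt (fun z => g (f z)) s := by
  subst hw
  exact hg.comp hf

lemma functional (hHE : T_HEc) (χ : RCC K) {L : ℂ → ℂ} (hL : Differentiable ℂ L)
    (h : ∀ s : ℂ, 1 < s.re → L s = Lc χ s) :
    ∃ ε : ℂ, ‖ε‖ = 1 ∧ ∀ s : ℂ, gS χ s ≠ 0 → gS χ (1 - (starRingEnd ℂ) s) ≠ 0 →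
      gS χ s * L s = ε * (cond χ : ℂ) ^ (1 / 2 - s) *
        (starRingEnd ℂ) (gS χ (1 - (starRingEnd ℂ) s) * L (1 - (starRingEnd ℂ) s)) := by
  obtain ⟨Z, Z', ε, hZ, hZ', hε, hfe, -⟩ := hHE K χ
  have hN : (cond χ : ℂ) ≠ 0 := by exact_mod_cast cond_ne χ
  have off : ∀ s : ℂ, s.im ≠ 0 → gS χ s * L s = ε * (cond χ : ℂ) ^ (1 / 2 - s) *
      (starRingEnd ℂ) (gS χ (1 - (starRingEnd ℂ) s) * L (1 - (starRingEnd ℂ) s)) := by
    intro s hs
    have h1 := hfe s hs
    have h2 : (1 - s).im ≠ 0 := by simpa using hs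
    have h3 := eq_cont χ hL h hZ s hs
    have h4 := eq_cont χ.bar (cc_diff hL) (cc_eq χ h) hZ' (1 - s) h2
    unfold compc at h1
    rw [h3, h4, show χ.bar.f = χ.f from rfl, cond_cast, gS_bar] at h1
    have h5 : cc L (1 - s) = (starRingEnd ℂ) (L (1 - (starRingEnd ℂ) s)) := by
      unfold cc
      rw [map_sub, map_one]
    have h6 : gS χ (1 - s) = (starRingEnd ℂ) (gS χ (1 - (starRingEnd ℂ) s)) := by
      rw [← gS_conj, map_sub, map_one, Complex.conj_conj]
    rw [h5, h6] at h1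
    rw [map_mul]
    have h7 : (cond χ : ℂ) ^ (s / 2) ≠ 0 := by
      rw [Ne, cpow_eq_zero_iff]
      exact fun h => hN h.1
    have h8 : (cond χ : ℂ) ^ ((1 - s) / 2) =
        (cond χ : ℂ) ^ (s / 2) * (cond χ : ℂ) ^ (1 / 2 - s) := by
      rw [← cpow_add _ _ hN]
      congr 1
      ring
    rw [h8] at h1
    refine mul_left_cancel₀ h7 ?_
    linear_combination h1
  refine ⟨ε, hε, fun s hs1 hs2 => ?_⟩
  refine tendsto_nhds_unique_of_frequently_eq (f := fun s => gS χ s * L s)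
    (g := fun s => ε * (cond χ : ℂ) ^ (1 / 2 - s) *
      (starRingEnd ℂ) (gS χ (1 - (starRingEnd ℂ) s) * L (1 - (starRingEnd ℂ) s)))
    (l := 𝓝 s) ?_ ?_ ((freq_im s).mono fun z hz => off z hz)
  · exact (gS_cont χ hs1).mul hL.continuous.continuousAt
  · refine ContinuousAt.mul (ContinuousAt.mul continuousAt_const ?_) ?_
    · exact ((continuous_const.sub continuous_id).const_cpow (Or.inl hN)).continuousAt
    · refine Complex.continuous_conj.continuousAt.comp ?_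
      have h1 : ContinuousAt (fun z : ℂ => 1 - (starRingEnd ℂ) z) s :=
        (continuous_const.sub Complex.continuous_conj).continuousAt
      have h2 := comp_aux h1 (gS_cont χ hs2) rfl
      have h3 := comp_aux h1 (hL.continuous.continuousAt (x := 1 - (starRingEnd ℂ) s)) rfl
      exact h2.mul h3

end

end Pool.Agent.H23.RCI
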